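import Mathlib
import Pool.Agent.H525.EX.Stm8
import Pool.Agent.H345.EX.GD21

/-!
# GD31: the derivative at `1` of the weighted sum of all weights of the first kind (helper443 for
helper525, adapted from `Pool/Agent/H345/EX/GD21.lean`)
-/

namespace Pool.Agent.H443.EX.GD31

open Polynomial UniqueFactorizationMonoid
open Pool.Agent.H985.Chow (mob)
open Pool.Agent.H525.QF
open Pool.Agent.H525.EX
open Pool.Agent.H345.EX.GD21
open scoped Classical

variable {K : Type} [Field K] [Fintype K]

lemma p1_eq (ω : K → ℝ) (m : ℕ) : p1 ω m =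
    ∑ v ∈ (cI K m).filter (fun v => Irreducible (F2 v)), ω (v.1.coeff m) := by
  unfold p1 cI
  refine Finset.sum_congr ?_ fun _ _ => rfl
  ext v
  simp only [Finset.mem_filter]
  constructor
  · rintro ⟨h1, h2⟩
    exact ⟨⟨h1, cop_of_irr h2⟩, h2⟩
  · rintro ⟨⟨h1, _⟩, h2⟩
    exact ⟨h1, h2⟩

end Pool.Agent.H443.EX.GD31

namespace Pool.Agent.H443.EX

open Polynomial UniqueFactorizationMonoid
open Pool.Agent.H985.Chow (mob)
open Pool.Agent.H525.QF
open Pool.Agent.H525.EX
open Pool.Agent.H345.EX.GD21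
open Pool.Agent.H443.EX.GD31
open scoped Classical

theorem t_gd31 : S_gd31 := by
  intro hR hE hP K _ _ _ κ hκ h ρ hHR hHV hρ ω n
  have step1 : ∑ k ∈ Finset.range (4 * n + 3), (k : ℝ) * G1 ω h n k =
      ∑ j ∈ Finset.range (n + 1), ∑ G ∈ mon K j, ∑ v ∈ cI K (n - j),
        ω (v.1.coeff (n - j)) * (derivative (W h (G ^ 2 * F2 v))).eval 1 := by
    unfold G1
    simp only [Finset.mul_sum]
    rw [Finset.sum_comm]
    refine Finset.sum_congr rfl fun j hj => ?_
    rw [Finset.sum_comm]
    refine Finset.sum_congr rfl fun G hG => ?_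
    rw [Finset.sum_comm]
    refine Finset.sum_congr rfl fun v hv => ?_
    rw [der_eval _ (4 * n + 3) ?_, Finset.mul_sum]
    · refine Finset.sum_congr rfl fun k _ => ?_
      ring
    unfold cI at hv
    rw [Finset.mem_filter, Finset.mem_product] at hv
    obtain ⟨⟨hv1, hv2⟩, hv3⟩ := hv
    have hF := F_mon hv1 hv2
    have hsq := ((hP K κ hκ (n - j) v hv3).1 hv1 hv2).1
    rw [mem_mon] at hG
    have h1 := (hR K _ h hHR G (F2 v) hG.1 hF.1 hsq).1
    rw [hG.2, hF.2] at h1
    rw [Finset.mem_range] at hj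
    omega
  rw [step1, ← Finset.sum_flip (fun m => if (2 * m + 1) ∣ (2 * n + 1) ∧
        (2 * n + 1) / (2 * m + 1) % 4 = 1 then
        p1 ω m * (4 * m + 2) * ρ (4 * m + 2) (((2 * n + 1) / (2 * m + 1) - 1) / 4) else 0)]
  refine Finset.sum_congr rfl fun j hj => ?_
  rw [Finset.mem_range] at hj
  obtain ⟨m, hm⟩ : ∃ m, n - j = m := ⟨_, rfl⟩
  have hmj : m + j = n := by omega
  rw [hm, Finset.sum_comm]
  have key : ∀ v ∈ cI K m, ∑ G ∈ mon K j,
      ω (v.1.coeff m) * (derivative (W h (G ^ 2 * F2 v))).eval 1 =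
      if Irreducible (F2 v) then (if (2 * m + 1) ∣ (2 * n + 1) ∧
        (2 * n + 1) / (2 * m + 1) % 4 = 1 then ω (v.1.coeff m) *
        (((4 * m + 2 : ℕ) : ℝ) * ρ (4 * m + 2) (((2 * n + 1) / (2 * m + 1) - 1) / 4)) else 0)
        else 0 := by
    intro v hv
    rw [← Finset.mul_sum]
    unfold cI at hv
    rw [Finset.mem_filter, Finset.mem_product] at hv
    obtain ⟨⟨hv1, hv2⟩, hv3⟩ := hv
    have hF := F_mon hv1 hv2
    have hsq := ((hP K κ hκ m v hv3).1 hv1 hv2).1
    have hF1 : F2 v ≠ 1 := by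
      intro h0
      have h1 := hF.2
      rw [h0, natDegree_one] at h1
      omega
    have hEV := fun G (hG : G.Monic) => (hE K h hHV).2 G (F2 v) hG hF.1 hsq hF1
    by_cases hirr : Irreducible (F2 v)
    · rw [if_pos hirr]
      by_cases hd : (2 * m + 1) ∣ (2 * n + 1) ∧ (2 * n + 1) / (2 * m + 1) % 4 = 1
      · rw [if_pos hd]
        congr 1
        have hj2 := arith hmj hd.1 hd.2
        set a0 := ((2 * n + 1) / (2 * m + 1) - 1) / 4 with ha0
        have hmem : (F2 v) ^ a0 ∈ mon K j := by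
          rw [mem_mon]
          refine ⟨hF.1.pow _, ?_⟩
          rw [hF.1.natDegree_pow, hF.2, hj2, mul_comm]
        rw [Finset.sum_eq_single_of_mem _ hmem]
        · rw [(hEV _ (hF.1.pow _)).1 a0 hirr rfl, hρ, hF.2]
        · intro G hG hne
          rw [mem_mon] at hG
          refine (hEV G hG.1).2 (Or.inr fun a ha => hne ?_)
          have h1 : a * (4 * m + 2) = (4 * m + 2) * a0 := by
            rw [← hj2, ← hG.2, ha, hF.1.natDegree_pow, hF.2]
          have h2 : a = a0 := by
            have h3 : (4 * m + 2) * a = (4 * m + 2) * a0 := by rw [mul_comm, h1]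
            exact Nat.eq_of_mul_eq_mul_left (by omega) h3
          rw [ha, h2]
      · rw [if_neg hd]
        rw [Finset.sum_eq_zero fun G hG => ?_, mul_zero]
        rw [mem_mon] at hG
        refine (hEV G hG.1).2 (Or.inr fun a ha => hd ?_)
        have h1 : j = a * (4 * m + 2) := by
          rw [← hG.2, ha, hF.1.natDegree_pow, hF.2]
        exact arith2 hmj h1
    · rw [if_neg hirr]
      rw [Finset.sum_eq_zero fun G hG => ?_, mul_zero]
      rw [mem_mon] at hG
      exact (hEV G hG.1).2 (Or.inl hirr)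
  rw [Finset.sum_congr rfl key, ← Finset.sum_filter, p1_eq]
  split_ifs with hd
  · rw [← Finset.sum_mul]
    push_cast
    ring
  · rw [Finset.sum_const_zero]

end Pool.Agent.H443.EX
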